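import Pool.Agent.MVO.StmtsG

/-!
Squad MVO, row ASB: assembly of the block law.
-/

set_option autoImplicit false

namespace Pool.Agent.MVO.H47

open Pool.Agent.Helper14_MV Pool.Agent.Helper2_MV Pool.Agent.MVO

theorem asb_trans {ρ : FIC} {u v w : List ℕ} (h : RR ρ u v) (h' : RR ρ v w) : RR ρ u w :=
  ρ.trans h h'

theorem asb_le {β ρ : FIC} (hle : β ≤ ρ) {u v : List ℕ} (h : RR β u v) : RR ρ u v := hle _ _ h

theorem asm_perm {k : ℕ} {B B' : ℕ → List ℕ} (h : ∀ j ≤ k, (B j).Perm (B' j)) :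
    (asm k B).Perm (asm k B') := by
  induction k with
  | zero => exact h 0 (le_refl 0)
  | succ k ih =>
    simp only [asm]
    exact (ih (fun j hj => h j (by omega))).append ((h (k + 1) (le_refl _)).cons _)

theorem deg_pos {k : ℕ} {a : ℕ → ℕ} (h : 0 < deg k a) : ∃ j ≤ k, 0 < a j := by
  by_contra hno
  have : deg k a = 0 := by
    unfold deg
    apply Finset.sum_eq_zero
    intro j hj
    rw [Finset.mem_range] at hj
    by_contra h1
    exact hno ⟨j, by omega, Nat.pos_of_ne_zero h1⟩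
  omega

theorem deg_congr {k : ℕ} {a a' : ℕ → ℕ} (h : ∀ j ≤ k, a j = a' j) : deg k a = deg k a' := by
  unfold deg
  apply Finset.sum_congr rfl
  intro j hj
  rw [Finset.mem_range] at hj
  exact h j (by omega)

theorem mem_gb {n : ℕ → ℕ} {D : List ℕ} {c : ℕ} (h : c ∈ gb n D) : c ∈ D := by
  unfold gb at h
  rw [List.mem_flatMap] at h
  obtain ⟨d, hd, hc⟩ := h
  rw [List.eq_of_mem_replicate hc]
  exact hd

theorem asb (hCHB : ChbStmt) (hSEQ : SeqStmt) (hTYP : TypStmt) (hORD : OrdStmt) : AsbStmt := by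
  intro β hWU hG hR hSW hOL hTwo ρ σ τ hβρ hβσ hβτ hρτ hNρ hNσ k B v hB hmult hτ hch
  set ω := FIC.sup ρ (FIC.inf σ τ) with hω
  have hρω : ρ ≤ ω := FIC.le_sup_left _ _
  have hβω : β ≤ ω := FIC.le_trans' hβρ hρω
  have hωτ : ω ≤ τ := FIC.sup_le hρτ (FIC.inf_le_right _ _)
  have hωs : ω ≤ FIC.sup ρ σ :=
    FIC.sup_le (FIC.le_sup_left _ _) (FIC.le_trans' (FIC.inf_le_left _ _) (FIC.le_sup_right _ _))
  obtain ⟨B', rfl, hB', hdeg, hchA⟩ := hSEQ ρ σ hNρ hNσ k B v hB hch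
  -- the letters
  set X : List ℕ := ((List.range (k + 1)).flatMap B).dedup with hX
  have hmemX : ∀ c, c ∈ X ↔ ∃ j ≤ k, c ∈ B j := by
    intro c
    rw [hX, List.mem_dedup, List.mem_flatMap]
    constructor
    · rintro ⟨j, hj, hc⟩
      rw [List.mem_range] at hj
      exact ⟨j, by omega, hc⟩
    · rintro ⟨j, hj, hc⟩
      exact ⟨j, by rw [List.mem_range]; omega, hc⟩
  have hXnd : X.Nodup := List.nodup_dedup _
  have hXns : ∀ c ∈ X, NS k c := by
    intro c hc
    obtain ⟨j, hj, hcj⟩ := (hmemX c).1 hc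
    exact hB j hj c hcj
  have hXm : ∀ c ∈ X, 2 ≤ deg k (fun j => (B j).count c) := by
    intro c hc
    obtain ⟨j, hj, hcj⟩ := (hmemX c).1 hc
    exact hmult j hj c hcj
  have hXm' : ∀ c ∈ X, 2 ≤ deg k (fun j => (B' j).count c) := by
    intro c hc
    rw [← hdeg c]
    exact hXm c hc
  have hBX : ∀ j ≤ k, ∀ c ∈ B j, c ∈ X := fun j hj c hc => (hmemX c).2 ⟨j, hj, hc⟩
  have hB'X : ∀ j ≤ k, ∀ c ∈ B' j, c ∈ X := by
    intro j hj c hc
    have h1 : 0 < deg k (fun j => (B' j).count c) := by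
      unfold deg
      refine Finset.sum_pos' (fun _ _ => Nat.zero_le _) ⟨j, ?_, ?_⟩
      · rw [Finset.mem_range]; omega
      · exact List.count_pos_iff.2 hc
    rw [← hdeg c] at h1
    obtain ⟨i, hi, hci⟩ := deg_pos h1
    exact (hmemX c).2 ⟨i, hi, List.count_pos_iff.1 hci⟩
  obtain ⟨D, hD, hug⟩ := hTYP β hG hOL ρ σ τ hβρ hβσ hβτ hρτ hNρ hNσ k X B B' hXnd hXns hB hBX
    hXm hτ hchA
  obtain ⟨D', hD', hvg⟩ := hG k B' X hB' hXnd hXns hB'X hXm'
  set n : ℕ → ℕ → ℕ := fun j c => (B' j).count c with hn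
  have hgg : RR τ (gw k n D) (gw k n D') :=
    asb_trans (asb_le hωτ hug.symm) (asb_trans hτ (asb_le hβτ hvg))
  have hchs : RR (FIC.sup ρ σ) (asm k B) (asm k B') := by
    have key : ∀ w : List ℕ, Relation.ReflTransGen (StB ρ σ) (asm k B) w →
        RR (FIC.sup ρ σ) (asm k B) w := by
      intro w hw
      induction hw with
      | refl => exact RR.refl _
      | tail _ h2 ih =>
        refine asb_trans ih ?_
        rcases h2.2 with h3 | h3
        · exact asb_le (FIC.le_sup_left _ _) h3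
        · exact asb_le (FIC.le_sup_right _ _) h3
    exact key _ hch
  have hggs : RR (FIC.sup ρ σ) (gw k n D) (gw k n D') :=
    asb_trans (asb_le hωs hug.symm) (asb_trans hchs
      (asb_le (FIC.le_trans' hβρ (FIC.le_sup_left _ _)) hvg))
  have hbal : Bal (gw k n D) (gw k n D') := by
    intro c
    apply List.Perm.count_eq
    apply asm_perm
    intro j _
    unfold gb
    exact ((hD j).trans (hD' j).symm).flatMap_right _
  have hchB := hCHB β ρ σ hWU hβρ hβσ _ _ hbal hggs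
  have hGok : ∀ E : ℕ → List ℕ, (∀ j, (E j).Perm X) → BlkOk k (fun j => gb (n j) (E j)) := by
    intro E hE j _ c hc
    exact hXns c ((hE j).mem_iff.1 (mem_gb hc))
  obtain ⟨B2, hB2e, hB2ok, hB2deg, hB2ch⟩ := hSEQ ρ σ hNρ hNσ k (fun j => gb (n j) (D j))
    (gw k n D') (hGok D hD) hchB
  have hu := uniq (hGok D' hD') hB2ok hB2e
  have hlast : StA ρ σ k B2 (fun j => gb (n j) (D' j)) := by
    refine ⟨hB2ok, hGok D' hD', ?_, Or.inl ?_⟩
    · intro c
      apply deg_congr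
      intro j hj
      show (B2 j).count c = (gb (n j) (D' j)).count c
      rw [← hu j hj]
    · rw [← hB2e]
      exact RR.refl _
  have hfin := hORD β hR hSW hTwo ρ σ τ hβρ hβσ hβτ hρτ hNρ hNσ k X n D D'
    ⟨hXnd, hXns, hXm', hD⟩ hD' hgg (hB2ch.tail hlast)
  exact asb_trans hug (asb_trans hfin (asb_le hβω hvg.symm))

end Pool.Agent.MVO.H47
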