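import Pool.Agent.MVO.StmtsG

/-!
Squad MVO, row TWO: the two letter law along chains.
-/

set_option autoImplicit false

namespace Pool.Agent.MVO.H47

open Pool.Agent.Helper14_MV Pool.Agent.Helper2_MV Pool.Agent.MVO

theorem RRt {ρ : FIC} {u v w : List ℕ} (h : RR ρ u v) (h' : RR ρ v w) : RR ρ u w := ρ.trans h h'

theorem RRle {β ρ : FIC} (hle : β ≤ ρ) {u v : List ℕ} (h : RR β u v) : RR ρ u v := hle _ _ h

theorem rep_flat (n : ℕ) (a b : ℕ) (h : ℕ → List ℕ) (hh : h a = [b]) :
    (List.replicate n a).flatMap h = List.replicate n b := by
  induction n with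
  | zero => rfl
  | succ n ih =>
    rw [List.replicate_succ, List.flatMap_cons, ih, hh, List.replicate_succ]
    rfl

theorem filter_rep_pos (n a : ℕ) (p : ℕ → Bool) (h : p a = true) :
    (List.replicate n a).filter p = List.replicate n a := by
  rw [List.filter_eq_self]
  intro c hc
  rw [List.eq_of_mem_replicate hc]
  exact h

theorem filter_rep_neg (n a : ℕ) (p : ℕ → Bool) (h : p a = false) :
    (List.replicate n a).filter p = [] := by
  rw [List.filter_eq_nil_iff]
  intro c hc
  rw [List.eq_of_mem_replicate hc, h]
  simp

theorem blkOk_rep (k : ℕ) (a : ℕ → ℕ) (c : ℕ) (hc : c < 2) :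
    BlkOk k (fun j => List.replicate (a j) c) := by
  intro j _ d hd hs
  rw [List.eq_of_mem_replicate hd] at hs
  omega

theorem blkOk_w2 (k : ℕ) (a b : ℕ → ℕ) (e : ℕ → Bool) :
    BlkOk k (fun j => bl (a j) (b j) (e j)) := by
  intro j _ d hd hs
  have : d = 0 ∨ d = 1 := by
    simp only [bl] at hd
    split_ifs at hd
    · rcases List.mem_append.1 hd with h | h
      · exact Or.inr (List.eq_of_mem_replicate h)
      · exact Or.inl (List.eq_of_mem_replicate h)
    · rcases List.mem_append.1 hd with h | h
      · exact Or.inl (List.eq_of_mem_replicate h)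
      · exact Or.inr (List.eq_of_mem_replicate h)
  omega

theorem two : TwoStmt := by
  intro β hG hR hT ρ hβρ hNC k a b e B ha hb hB hB01 hd0 hd1 hr
  obtain ⟨D, hD, hDr⟩ := hG k B [0, 1] hB (by simp) (by
      intro c hc hs
      simp only [List.mem_cons, List.not_mem_nil, or_false] at hc
      omega) (by
      intro j hj c hc
      have := hB01 j hj c hc
      simpa using this) (by
      intro c hc
      simp only [List.mem_cons, List.not_mem_nil, or_false] at hc
      rcases hc with rfl | rfl
      · rw [hd0]; exact ha
      · rw [hd1]; exact hb)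
  set a' : ℕ → ℕ := fun j => (B j).count 0 with ha'
  set b' : ℕ → ℕ := fun j => (B j).count 1 with hb'
  set e' : ℕ → Bool := fun j => decide (D j = [1, 0]) with he'
  have hgw : gw k (fun j c => (B j).count c) D = w2 k a' b' e' := by
    unfold gw w2
    apply asm_congr
    intro j _
    have h1 : D j = [0, 1] ∨ D j = [1, 0] := by
      have h2 := hD j
      have hlen := h2.length_eq
      rcases hDj : D j with _ | ⟨x, _ | ⟨y, _ | ⟨z, l⟩⟩⟩
      · rw [hDj] at hlen; simp at hlen
      · rw [hDj] at hlen; simp at hlen
      · rw [hDj] at h2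
        have hx : x ∈ [0, 1] := h2.subset (by simp)
        have hy : y ∈ [0, 1] := h2.subset (by simp)
        have hnd : [x, y].Nodup := h2.nodup_iff.2 (by simp)
        simp only [List.mem_cons, List.not_mem_nil, or_false] at hx hy
        simp only [List.nodup_cons, List.mem_cons, List.not_mem_nil, or_false, not_false_eq_true,
          List.nodup_nil, and_true] at hnd
        rcases hx with rfl | rfl <;> rcases hy with rfl | rfl
        · exact absurd rfl hnd
        · exact Or.inl rfl
        · exact Or.inr rfl
        · exact absurd rfl hnd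
      · rw [hDj] at hlen; simp at hlen
    rcases h1 with h1 | h1
    · have h3 : e' j = false := by simp [he', h1]
      rw [h3, h1]
      simp [gb, bl, ha', hb']
    · have h3 : e' j = true := by simp [he', h1]
      rw [h3, h1]
      simp [gb, bl, ha', hb']
  rw [hgw] at hDr
  have hρ : RR ρ (w2 k a b e) (w2 k a' b' e') := RRt hr (RRle hβρ hDr)
  -- one letter identities
  have hLa : L1 ρ k a a' := by
    have h1 := hρ.filter (fun c => decide (c ≠ 1))
    have hf : ∀ (a b : ℕ → ℕ) (e : ℕ → Bool),
        (w2 k a b e).filter (fun c => decide (c ≠ 1)) = mw k a := by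
      intro a b e
      unfold w2 mw
      rw [asm_filter _ (by intro c h1 _; simp; omega)]
      apply asm_congr
      intro j _
      simp only [bl]
      split_ifs
      · rw [List.filter_append, filter_rep_neg _ _ _ (by simp), filter_rep_pos _ _ _ (by simp)]
        simp
      · rw [List.filter_append, filter_rep_neg _ 1 _ (by simp), filter_rep_pos _ _ _ (by simp)]
        simp
    rw [hf, hf] at h1
    exact h1
  have hLb : L1 ρ k b b' := by
    have h1 := hρ.filter (fun c => decide (c ≠ 0))
    have hf : ∀ (a b : ℕ → ℕ) (e : ℕ → Bool),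
        (w2 k a b e).filter (fun c => decide (c ≠ 0)) =
          asm k (fun j => List.replicate (b j) 1) := by
      intro a b e
      unfold w2
      rw [asm_filter _ (by intro c h1 _; simp; omega)]
      apply asm_congr
      intro j _
      simp only [bl]
      split_ifs
      · rw [List.filter_append, filter_rep_neg _ 0 _ (by simp), filter_rep_pos _ 1 _ (by simp)]
        simp
      · rw [List.filter_append, filter_rep_neg _ 0 _ (by simp), filter_rep_pos _ 1 _ (by simp)]
        simp
    rw [hf, hf] at h1
    have h2 := rr_sub ρ (fun _ => [0]) (blkOk_rep k b 1 (by omega)) (blkOk_rep k b' 1 (by omega)) h1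
    have e1 : ∀ b : ℕ → ℕ, asm k (fun j => (List.replicate (b j) 1).flatMap (fun _ => [0])) =
        mw k b := by
      intro b
      unfold mw
      apply asm_congr
      intro j _
      exact rep_flat _ _ _ _ rfl
    rw [e1, e1] at h2
    exact h2
  rcases hT ρ hβρ hNC k a a' ha hd0.symm hLa with hLa' | hall
  swap
  · exact Or.inr fun e'' i hi => hall b e'' hb i hi
  rcases hT ρ hβρ hNC k b b' hb hd1.symm hLb with hLb' | hall
  swap
  · right
    intro e'' i hi
    have h1 := hall a (fun j => !(e'' j)) ha i hi
    unfold Ex at h1 ⊢
    have h2 := rr_sub ρ (fun c => if c = 0 then [1] else [0]) (blkOk_w2 k b a _)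
      (blkOk_w2 k b a _) h1
    have e1 : ∀ f : ℕ → Bool, asm k (fun j => (bl (b j) (a j) (f j)).flatMap
        (fun c => if c = 0 then [1] else [0])) = w2 k a b (fun j => !(f j)) := by
      intro f
      unfold w2
      apply asm_congr
      intro j _
      simp only [bl]
      by_cases hfj : f j = true
      · rw [if_pos hfj, if_neg (by simp [hfj]), List.flatMap_append,
          rep_flat _ 0 1 _ (by simp), rep_flat _ 1 0 _ (by simp)]
      · rw [if_neg hfj, if_pos (by simp [hfj]), List.flatMap_append,
          rep_flat _ 0 1 _ (by simp), rep_flat _ 1 0 _ (by simp)]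
    rw [e1, e1] at h2
    have e2 : (fun j => !(!(e'' j))) = e'' := by
      funext j
      simp
    have e3 : (fun j => !(flp (fun j => !(e'' j)) i j)) = flp e'' i := by
      funext j
      unfold flp
      split_ifs <;> simp
    rw [e2, e3] at h2
    exact h2
  -- both one letter identities are in `β`
  have hs1 : RR β (w2 k a b e') (w2 k a' b e') := by
    have h1 := rr_ins' β (fun j => if e' j then List.replicate (b j) 1 else [])
      (fun j => if e' j then [] else List.replicate (b j) 1) (blkOk_mw k a) (blkOk_mw k a') hLa'
    have e1 : ∀ a : ℕ → ℕ, asm k (fun j => (if e' j then List.replicate (b j) 1 else []) ++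
        List.replicate (a j) 0 ++ (if e' j then [] else List.replicate (b j) 1)) =
        w2 k a b e' := by
      intro a
      unfold w2
      apply asm_congr
      intro j _
      simp only [bl]
      split_ifs <;> simp
    rw [e1, e1] at h1
    exact h1
  have hs2 : RR β (w2 k a' b e') (w2 k a' b' e') := by
    have h1 := rr_ins β (fun j => if e' j then [] else List.replicate (a' j) 0)
      (fun j => if e' j then List.replicate (a' j) 0 else []) (fun _ => [1])
      (blkOk_mw k b) (blkOk_mw k b') hLb'
    have e1 : ∀ b : ℕ → ℕ, asm k (fun j => (if e' j then [] else List.replicate (a' j) 0) ++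
        (List.replicate (b j) 0).flatMap (fun _ => [1]) ++
          (if e' j then List.replicate (a' j) 0 else [])) = w2 k a' b e' := by
      intro b
      unfold w2
      apply asm_congr
      intro j _
      rw [rep_flat _ 0 1 _ rfl]
      simp only [bl]
      split_ifs <;> simp
    rw [e1, e1] at h1
    exact h1
  have hs : RR β (w2 k a b e') (w2 k a' b' e') := RRt hs1 hs2
  have hsB : RR β (w2 k a b e') (asm k B) := RRt hs hDr.symm
  have hee : RR ρ (w2 k a b e) (w2 k a b e') := RRt hρ (RRle hβρ hs.symm)
  obtain ⟨r, hrr⟩ := hR k a b ha hb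
  by_cases her : e r = e' r
  · exact Or.inl (RRt (hrr e e' her) hsB)
  · right
    intro e'' i _
    unfold Ex
    by_cases hir : i = r
    · subst hir
      by_cases h1 : e'' i = e i
      · have h2 : e' i = flp e'' i i := by
          unfold flp
          rw [if_pos rfl, h1]
          cases h3 : e i <;> cases h4 : e' i <;> simp_all
        exact RRt (RRle hβρ (hrr e'' e h1)) (RRt hee (RRle hβρ (hrr e' _ h2)))
      · have h1' : e'' i = e' i := by
          cases h3 : e i <;> cases h4 : e' i <;> cases h5 : e'' i <;> simp_all
        have h2 : e i = flp e'' i i := by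
          unfold flp
          rw [if_pos rfl, h1']
          cases h3 : e i <;> cases h4 : e' i <;> simp_all
        exact RRt (RRle hβρ (hrr e'' e' h1')) (RRt hee.symm (RRle hβρ (hrr e _ h2)))
    · refine RRle hβρ (hrr e'' _ ?_)
      unfold flp
      rw [if_neg (fun h => hir h.symm)]

end Pool.Agent.MVO.H47
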