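import Pool.Agent.MVO.StmtsV

/-!
# Squad MVO, row FV4 (helper47): domination in class Va
-/

set_option autoImplicit false

namespace Pool.Agent.MVO.H47

open Pool.Agent.Helper14_MV Pool.Agent.Helper2_MV Pool.Agent.MVO

namespace Fv4Row

theorem bl_mem {p q c : ℕ} {e : Bool} (h : c ∈ bl p q e) : c = 0 ∨ c = 1 := by
  unfold bl at h
  cases e
  · simp only [Bool.false_eq_true, if_false, List.mem_append, List.mem_replicate] at h
    rcases h with h | h
    · exact Or.inl h.2
    · exact Or.inr h.2
  · simp only [if_true, List.mem_append, List.mem_replicate] at h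
    rcases h with h | h
    · exact Or.inr h.2
    · exact Or.inl h.2

theorem bl_c0 (p q : ℕ) (e : Bool) : (bl p q e).count 0 = p := by
  unfold bl
  cases e <;> simp [List.count_replicate]

theorem bl_c1 (p q : ℕ) (e : Bool) : (bl p q e).count 1 = q := by
  unfold bl
  cases e <;> simp [List.count_replicate]

theorem bl_zero (e : Bool) : bl 0 0 e = [] := by
  unfold bl
  cases e <;> rfl

/-- the last letter of a block -/
theorem bl_last (Z : List ℕ) {p q : ℕ} (hp : 1 ≤ p) (hq : 1 ≤ q) (e : Bool) :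
    (Z ++ bl p q e).getLast? = some (if e then 0 else 1) := by
  obtain ⟨p', rfl⟩ := Nat.exists_eq_succ_of_ne_zero (show p ≠ 0 by omega)
  obtain ⟨q', rfl⟩ := Nat.exists_eq_succ_of_ne_zero (show q ≠ 0 by omega)
  unfold bl
  cases e
  · simp only [Bool.false_eq_true, if_false]
    rw [List.replicate_succ' (n := q'), ← List.append_assoc, ← List.append_assoc,
      List.getLast?_concat]
  · simp only [if_true]
    rw [List.replicate_succ' (n := p'), ← List.append_assoc, ← List.append_assoc,
      List.getLast?_concat]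

/-- counts in pushed blocks -/
theorem count_pshB (k : ℕ) (f : ℕ → ℕ) (B : ℕ → List ℕ) (a : ℕ → ℕ) (c : ℕ)
    (h : ∀ j, (B j).count c = a j) (j : ℕ) : (pshB k f B j).count c = psh k f a j := by
  induction k with
  | zero =>
    rw [pshB_zero]
    unfold psh
    by_cases h0 : f 0 = j
    · simp [h0, h]
    · simp [h0]
  | succ k ih =>
    rw [pshB_succ, List.count_append, ih]
    have e : psh (k + 1) f a j = psh k f a j + (if f (k + 1) = j then a (k + 1) else 0) := by
      unfold psh
      rw [Finset.sum_range_succ _ (k + 1)]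
    rw [e]
    by_cases h0 : f (k + 1) = j
    · rw [if_pos h0, if_pos h0, h]
    · rw [if_neg h0, if_neg h0]
      rfl

/-- the last nonempty part of a pushed block -/
theorem pshB_end {i : ℕ} (f : ℕ → ℕ) (B : ℕ → List ℕ) (k : ℕ) (hik : i ≤ k)
    (h : ∀ l ≤ k, i < l → f l = f i → B l = []) : ∃ Z, pshB k f B (f i) = Z ++ B i := by
  induction k, hik using Nat.le_induction with
  | base =>
    cases i with
    | zero => exact ⟨[], by rw [pshB_zero, if_pos rfl, List.nil_append]⟩
    | succ i => exact ⟨_, by rw [pshB_succ, if_pos rfl]⟩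
  | succ k hk ih =>
    obtain ⟨Z, hZ⟩ := ih (fun l hl h1 h2 => h l (by omega) h1 h2)
    refine ⟨Z, ?_⟩
    rw [pshB_succ, hZ]
    by_cases h0 : f (k + 1) = f i
    · rw [if_pos h0, h (k + 1) (le_refl _) (by omega) h0, List.append_nil]
    · rw [if_neg h0, List.append_nil]

theorem deg_psh {k k' : ℕ} {f : ℕ → ℕ} (hf : BMap k k' f) (a : ℕ → ℕ) :
    deg k' (psh k f a) = deg k a := by
  unfold deg psh
  rw [Finset.sum_comm]
  apply Finset.sum_congr rfl
  intro i hi
  rw [Finset.mem_range] at hi
  have := hf.le i (by omega)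
  rw [Finset.sum_ite_eq, if_pos (Finset.mem_range.2 (by omega))]

theorem deg_le {k : ℕ} {a b : ℕ → ℕ} (h : ∀ j ≤ k, a j ≤ b j) : deg k a ≤ deg k b := by
  unfold deg
  apply Finset.sum_le_sum
  intro j hj
  rw [Finset.mem_range] at hj
  exact h j (by omega)

theorem deg_congr {k : ℕ} {a b : ℕ → ℕ} (h : ∀ j ≤ k, a j = b j) : deg k a = deg k b := by
  unfold deg
  apply Finset.sum_congr rfl
  intro j hj
  rw [Finset.mem_range] at hj
  exact h j (by omega)

theorem flp_flp (e : ℕ → Bool) (i : ℕ) : flp (flp e i) i = e := by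
  funext j
  unfold flp
  by_cases h : j = i
  · subst h; simp
  · simp [h]

/-- the gathered form of the pushed word -/
theorem gath (hGLV : GlvStmt) {ρ : FIC} (hρ : MVD.Ve ρ) {k k' : ℕ} {f : ℕ → ℕ}
    {a b a' b' : ℕ → ℕ} {i : ℕ} (hi : i ≤ k) (hai : 1 ≤ a i) (hbi : 1 ≤ b i)
    (hla : ∀ l ≤ k, i < l → f l = f i → a l = 0 ∧ b l = 0)
    (ha' : ∀ j ≤ k', psh k f a j ≤ a' j) (hb' : ∀ j ≤ k', psh k f b j ≤ b' j)
    (hda : 2 ≤ deg k' a') (hdb : 2 ≤ deg k' b')
    (hone : ∀ j ≤ k', j ≠ f i → a' j = 0 ∨ b' j = 0) (e e' : ℕ → Bool) (he : e' (f i) = e i) :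
    RR ρ (asm k' (fun j => (List.replicate (a' j - psh k f a j) 0 ++
        List.replicate (b' j - psh k f b j) 1) ++ pshB k f (fun j => bl (a j) (b j) (e j)) j ++ []))
      (w2 k' a' b' e') := by
  obtain ⟨C, hC⟩ : ∃ C : ℕ → List ℕ, C = fun j => (List.replicate (a' j - psh k f a j) 0 ++
        List.replicate (b' j - psh k f b j) 1) ++ pshB k f (fun j => bl (a j) (b j) (e j)) j ++
        [] := ⟨_, rfl⟩
  rw [← hC]
  have hCj : ∀ j, C j = (List.replicate (a' j - psh k f a j) 0 ++
        List.replicate (b' j - psh k f b j) 1) ++ pshB k f (fun j => bl (a j) (b j) (e j)) j := by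
    intro j
    rw [hC]
    simp only [List.append_nil]
  have hc0 : ∀ j ≤ k', (C j).count 0 = a' j := by
    intro j hj
    rw [hCj, List.count_append, List.count_append,
      count_pshB k f _ a 0 (fun j => bl_c0 _ _ _) j]
    have h1 := ha' j hj
    simp only [List.count_replicate]
    simp
    omega
  have hc1 : ∀ j ≤ k', (C j).count 1 = b' j := by
    intro j hj
    rw [hCj, List.count_append, List.count_append,
      count_pshB k f _ b 1 (fun j => bl_c1 _ _ _) j]
    have h1 := hb' j hj
    simp only [List.count_replicate]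
    simp
    omega
  have hmem : ∀ j ≤ k', ∀ c ∈ C j, c = 0 ∨ c = 1 := by
    intro j _ c hc
    rw [hCj, List.mem_append, List.mem_append, mem_pshB] at hc
    rcases hc with (hc | hc) | ⟨t, _, _, hc⟩
    · exact Or.inl (List.eq_of_mem_replicate hc)
    · exact Or.inr (List.eq_of_mem_replicate hc)
    · exact bl_mem hc
  have hG := hGLV ρ hρ.1 k' C e' hmem
    (by rw [deg_congr hc0]; exact hda) (by rw [deg_congr hc1]; exact hdb)
    (by
      intro j hj h0 h1
      by_cases hji : j = f i
      · subst hji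
        obtain ⟨Z, hZ⟩ := pshB_end f (fun j => bl (a j) (b j) (e j)) k hi (by
          intro l hl h2 h3
          obtain ⟨h4, h5⟩ := hla l hl h2 h3
          simp only [h4, h5]
          exact bl_zero _)
        rw [hCj, hZ, ← List.append_assoc, bl_last _ hai hbi, he]
        cases e i <;> simp
      · exfalso
        have h2 : 0 < (C j).count 0 := List.count_pos_iff.2 h0
        have h3 : 0 < (C j).count 1 := List.count_pos_iff.2 h1
        rw [hc0 j hj] at h2
        rw [hc1 j hj] at h3
        rcases hone j hj hji with h4 | h4 <;> omega)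
  have hw : w2 k' (fun j => (C j).count 0) (fun j => (C j).count 1) e' = w2 k' a' b' e' := by
    unfold w2
    apply asm_congr
    intro j hj
    simp only [hc0 j hj, hc1 j hj]
  rw [hw] at hG
  exact hG

theorem blkOk_bl (k : ℕ) (a b : ℕ → ℕ) (e : ℕ → Bool) :
    BlkOk k (fun j => bl (a j) (b j) (e j)) := by
  intro j _ c hc hs
  rcases bl_mem hc with h | h <;> omega

end Fv4Row

open Fv4Row in
/-- **FV4** -/
theorem fv4 (hGLV : GlvStmt) (hFV1 : Fv1Stmt) : Fv4Stmt := by
  intro ρ hρ k k' f a b a' b' i hf hi hai hbi hda hdb hla ha' hb' hB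
  have hda' : 2 ≤ deg k' a' := by
    have h1 := deg_le ha'
    rw [deg_psh hf] at h1
    omega
  have hdb' : 2 ≤ deg k' b' := by
    have h1 := deg_le hb'
    rw [deg_psh hf] at h1
    omega
  by_cases hvr : VR k' a' b' (f i)
  swap
  · exact (hFV1 ρ hρ).1 k' a' b' (f i) hda' hdb' (hf.le i hi) hvr
  intro e'
  -- the exchange in the small word, with the order `e'` in the block
  have h1 := hB (fun _ => e' (f i))
  unfold Ex w2 at h1
  have h2 := rr_push ρ hf (blkOk_bl k a b _) (blkOk_bl k a b _) h1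
  have hok : ∀ e : ℕ → Bool, BlkOk k' (pshB k f (fun j => bl (a j) (b j) (e j))) := by
    intro e j _ c hc hs
    rw [mem_pshB] at hc
    obtain ⟨t, _, _, hc⟩ := hc
    rcases bl_mem hc with h | h <;> omega
  have h3 := rr_ins' ρ (fun j => List.replicate (a' j - psh k f a j) 0 ++
    List.replicate (b' j - psh k f b j) 1) (fun _ => []) (hok _) (hok _) h2
  have g1 := gath hGLV hρ hi hai hbi hla ha' hb' hda' hdb' hvr.1 (fun _ => e' (f i)) e' rfl
  have g2 := gath hGLV hρ hi hai hbi hla ha' hb' hda' hdb' hvr.1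
    (flp (fun _ => e' (f i)) i) (flp e' (f i)) (by simp [flp])
  exact ρ.trans (RR.symm g1) (ρ.trans h3 g2)

end Pool.Agent.MVO.H47
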