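import Pool.Agent.MVO.StmtsV
import Pool.Agent.Helper94_MVO.TCC
import Pool.Agent.Helper5_MVO.TAD

/-!
# Squad MVO, row TVC (helper47): tightness of class Va over `O3`
-/

set_option autoImplicit false

namespace Pool.Agent.MVO.H47

open Pool.Agent.Helper14_MV Pool.Agent.Helper2_MV Pool.Agent.MVO
open Pool.Agent.MVO.H65.TacRow
open Pool.Agent.MVO.H94.TccRow

namespace TvcRow

/-- class Va is inherited by larger congruences -/
theorem ve_mono {β ρ : FIC} (h : β ≤ ρ) (hC : MVD.Ve β) : MVD.Ve ρ := by
  refine ⟨?_, ?_, ?_⟩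
  · intro p c q x y h1 h2 h3
    exact rr_mono h (hC.1 p c q x y h1 h2 h3)
  · intro p q c r x y hm
    exact rr_mono h (hC.2.1 p q c r x y hm)
  · intro p q c r x y hm
    exact rr_mono h (hC.2.2 p q c r x y hm)

/-- `(L)`: `(d, 0) ~ (d - 1, 1)` for `d ≥ 3` -/
theorem lRel {R : FC} (h3 : O3 R) {d : ℕ} (hd : 3 ≤ d) : R.R 1 (v2 d 0) (v2 (d - 1) 1) := by
  have h := R.add (v2 (d - 3) 0) h3
  refine R.ext ?_ ?_ h
  · intro j _
    simp only [v2]
    split_ifs <;> omega
  · intro j _
    simp only [v2]
    split_ifs <;> omega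

/-- the representative of a set with one element -/
theorem rp_single {k p d : ℕ} (hd : 1 ≤ d) : ∀ j ≤ k, rp {p} p d j = sg p d j := by
  intro j _
  unfold rp sg
  rw [Finset.card_singleton]
  by_cases h : j = p
  · rw [if_pos (Finset.mem_singleton.2 h), if_pos h, if_pos h]
    omega
  · rw [if_neg (fun h' => h (Finset.mem_singleton.1 h')), if_neg h, if_neg h]

/-- a type with the profile `{p}` -/
theorem rel_sg (hoca : OcaStmt) {R : FC} (h3 : O3 R) {k p : ℕ} {a : ℕ → ℕ} (hd : 1 ≤ deg k a)
    (h : pr k a = {p}) : R.R k a (sg p (deg k a)) := by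
  have hp : p ∈ pr k a := by
    rw [h]
    exact Finset.mem_singleton_self p
  have h1 := rp_rel hoca h3 hp (by
    intro j hj
    rw [h, Finset.mem_singleton] at hj
    omega)
  rw [h] at h1
  exact R.ext (fun _ _ => rfl) (rp_single hd) h1

/-- case 1: two different first elements, at least two elements -/
theorem case1 (hoca : OcaStmt) {R : FC} (h3 : O3 R) {k : ℕ} {a : ℕ → ℕ}
    (hc : 2 ≤ (pr k a).card) (hB : B3 R (deg k a))
    (hJ : ∀ m, 3 ≤ m → m ≤ (pr k a).card → JP R m (deg k a)) :
    ∃ q ≤ k, R.R k a (sg q (deg k a)) := by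
  have hcd : (pr k a).card ≤ deg k a := card_pr_le
  have hc2 := card_tr' (m := 2) (P := pr k a) hc
  have hsub : tr 2 (pr k a) ⊆ Finset.range (k + 1) := tr_sub.trans pr_sub_range
  obtain ⟨q, hq, hqq⟩ := exists_max (P := tr 2 (pr k a)) (Finset.card_pos.1 (by omega))
  have hqk : q ≤ k := by
    have := Finset.mem_range.1 (hsub hq)
    omega
  have hc1 : ((tr 2 (pr k a)).erase q).card = 1 := by
    rw [Finset.card_erase_of_mem hq]
    omega
  obtain ⟨p, hp⟩ := Finset.card_eq_one.1 hc1
  have hpm : p ∈ (tr 2 (pr k a)).erase q := by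
    rw [hp]
    exact Finset.mem_singleton_self p
  have hp2 := Finset.mem_erase.1 hpm
  have hpq : p < q := by
    have h1 := hqq p hp2.2
    have h2 := hp2.1
    omega
  have hP : tr 2 (pr k a) = {p, q} := by
    rw [← Finset.insert_erase hq, hp, Finset.pair_comm]
  have hdeg := deg_rp (d := deg k a) hsub hq (by omega)
  have hpr := pr_rp (d := deg k a) hsub hq hqq
  have h1 := chain hoca h3 (n := 3) hJ ((pr k a).card - 2) 2 (by omega) (by omega) _ hdeg hpr
  have h5 := R.push k (tb p q) (bmap_tb hpq.le hqk) hB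
  refine ⟨q, hqk, R.trans h1 (R.symm (R.ext ?_ ?_ h5))⟩
  · intro j _
    rw [psh_tb]
    unfold sg
    by_cases hjq : j = q
    · have n1 : ¬ j = p := by omega
      simp only [if_neg n1, if_pos hjq]
      omega
    · by_cases hjp : j = p
      · simp only [if_neg hjq, if_pos hjp]
      · simp only [if_neg hjq, if_neg hjp]
  · intro j _
    rw [psh_tb]
    unfold rp
    rw [hc2, hP]
    by_cases hjq : j = q
    · have n1 : ¬ j = p := by omega
      have n2 : j ∈ ({p, q} : Finset ℕ) := by
        rw [hjq, Finset.mem_insert, Finset.mem_singleton]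
        exact Or.inr rfl
      simp only [if_neg n1, if_pos hjq, if_pos n2]
      omega
    · by_cases hjp : j = p
      · have n2 : j ∈ ({p, q} : Finset ℕ) := by
          rw [hjp]
          exact Finset.mem_insert_self _ _
        simp only [if_neg hjq, if_pos hjp, if_pos n2]
      · have n2 : ¬ j ∈ ({p, q} : Finset ℕ) := by
          rw [Finset.mem_insert, Finset.mem_singleton]
          omega
        simp only [if_neg hjq, if_neg hjp, if_neg n2]

/-- case 2: the same first element `p`; at least two elements on both sides -/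
theorem case2 (hoca : OcaStmt) (hocr : OcrStmt) (hFV1 : Fv1Stmt) (hFV4 : Fv4Stmt)
    (hFV6 : Fv6Stmt) {β ρ : FIC} (hle : β ≤ ρ) (hV : MVD.Ve ρ) (h3β : O3 (FC.ofFIC β))
    (hcla : ClauseV3 β) (h3 : O3 (FC.ofFIC ρ))
    (hSg : ∀ (k p i : ℕ) (b : ℕ → ℕ) (d : ℕ), p ≤ k → i ≤ k → 3 ≤ d → 2 ≤ deg k b →
      Bt ρ k (sg p d) b i) {k : ℕ}
    {a a' b : ℕ → ℕ} {i p : ℕ} (hd : 3 ≤ deg k a) (hdd : deg k a = deg k a') (h1 : L1 ρ k a a')
    (hL : ¬ L1 β k a a') (hpr : pr k a ≠ pr k a') (hb : 2 ≤ deg k b) (hi : i ≤ k)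
    (hp : p ∈ pr k a) (hpm : ∀ j ∈ pr k a, p ≤ j) (hp' : p ∈ pr k a')
    (hpm' : ∀ j ∈ pr k a', p ≤ j) : Bt ρ k a b i := by
  obtain ⟨V0, V2, _⟩ := hFV1 ρ hV
  have hex : ∃ m, tr m (pr k a) ≠ tr m (pr k a') :=
    ⟨max (pr k a).card (pr k a').card, by
      rw [tr_eq_self (le_max_left _ _), tr_eq_self (le_max_right _ _)]
      exact hpr⟩
  obtain ⟨n, hn, hnmin⟩ : ∃ n, tr n (pr k a) ≠ tr n (pr k a') ∧
      ∀ m < n, tr m (pr k a) = tr m (pr k a') := by
    classical
    refine ⟨Nat.find hex, Nat.find_spec hex, ?_⟩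
    intro m hm
    by_contra h
    exact Nat.find_min hex hm h
  have hn2 : 2 ≤ n := by
    by_contra hlt2
    apply hn
    have h4 : n = 0 ∨ n = 1 := by omega
    rcases h4 with h4 | h4
    · rw [h4, tr_zero, tr_zero]
    · rw [h4, tr_one hp hpm, tr_one hp' hpm']
  obtain ⟨c, rfl⟩ : ∃ c, n = c + 1 := ⟨n - 1, by omega⟩
  have hcX := hnmin c (by omega)
  have hge : ∀ m, c + 1 ≤ m → tr m (pr k a) ≠ tr m (pr k a') := by
    intro m hm h
    apply hn
    rw [← tr_tr hm, h, tr_tr hm]
  have hc1 : c ≤ (pr k a).card := le_card_of hcX hpr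
  have hc2 : c ≤ (pr k a').card := le_card_of hcX.symm (fun h => hpr h.symm)
  have hN : c + 1 ≤ (pr k a).card ∨ c + 1 ≤ (pr k a').card := by
    by_contra hno
    apply hpr
    have h4 := hcX
    rw [tr_eq_self (by omega), tr_eq_self (by omega)] at h4
    exact h4
  have hle1 : (pr k a).card ≤ deg k a := card_pr_le
  have hle2 : (pr k a').card ≤ deg k a' := card_pr_le
  obtain ⟨C1, C2, _, _, _⟩ := hocr (FC.ofFIC ρ) k a a' h3 (by omega) hdd h1 hpr
  have hJ : ∀ m, c + 1 ≤ m → (m ≤ (pr k a).card ∨ m ≤ (pr k a').card) →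
      JP (FC.ofFIC ρ) m (deg k a) := by
    intro m hm hm2
    by_cases h4 : 3 ≤ m
    · exact C1 m h4 (hge m hm) hm2
    · have h5 : m = 2 := by omega
      subst h5
      apply jp2 hoca h3
      exact C2 (by rw [min_of hp hpm, min_of hp' hpm']) (hge 2 hm)
  -- the common initial segment
  have hXc : (tr c (pr k a)).card = c := card_tr' hc1
  have hXs : tr c (pr k a) ⊆ Finset.range (k + 1) := tr_sub.trans pr_sub_range
  obtain ⟨q, hq, hqq⟩ := exists_max (P := tr c (pr k a)) (Finset.card_pos.1 (by omega))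
  have hpX : p ∈ tr c (pr k a) := by
    have h4 : p ∈ tr 1 (tr c (pr k a)) := by
      rw [tr_tr (by omega), tr_one hp hpm]
      exact Finset.mem_singleton_self p
    exact tr_sub h4
  have hqk := Finset.mem_range.1 (hXs hq)
  have hdX : deg k (rp (tr c (pr k a)) q (deg k a)) = deg k a := deg_rp hXs hq (by omega)
  have hprX : pr k (rp (tr c (pr k a)) q (deg k a)) = tr c (pr k a) := pr_rp hXs hq hqq
  have haX : L1 ρ k a (rp (tr c (pr k a)) q (deg k a)) :=
    chain hoca h3 (n := c + 1) (fun m hm hm2 => hJ m hm (Or.inl hm2)) ((pr k a).card - c) c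
      (by omega) (by omega) _ hdX hprX
  -- one element
  by_cases hone : c = 1
  · have h4 : tr c (pr k a) = {p} := by
      rw [hone, tr_one hp hpm]
    have h5 : q = p := by
      rw [h4] at hq
      exact Finset.mem_singleton.1 hq
    rw [h4, h5] at haX
    have h6 : L1 ρ k a (sg p (deg k a)) :=
      (FC.ofFIC ρ).ext (fun _ _ => rfl) (rp_single (by omega)) haX
    exact V2 k a _ b i h6 (hSg k p i b _ (by omega) hi hd hb)
  have hc3 : 2 ≤ c := by omega
  have hX1 : ∀ t ∈ tr c (pr k a), 1 ≤ rp (tr c (pr k a)) q (deg k a) t := by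
    intro t ht
    unfold rp
    rw [if_pos ht]
    omega
  have hX2 : 2 ≤ rp (tr c (pr k a)) q (deg k a) q := by
    unfold rp
    rw [if_pos hq, if_pos rfl, hXc]
    omega
  have hX0 : ∀ t, t ∉ tr c (pr k a) → rp (tr c (pr k a)) q (deg k a) t = 0 := by
    intro t ht
    unfold rp
    rw [if_neg ht, if_neg (fun h => ht (by rw [h]; exact hq))]
  -- the sets with one more element, in any number of blocks
  have hXs' : ∀ k' j, k ≤ k' → j ≤ k' → insert j (tr c (pr k a)) ⊆ Finset.range (k' + 1) := by
    intro k' j hk hj t ht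
    rw [Finset.mem_range]
    rcases Finset.mem_insert.1 ht with h | h
    · omega
    · have := Finset.mem_range.1 (hXs h)
      omega
  have hY : ∀ k' j, k ≤ k' → j ≤ k' → q < j →
      deg k' (rp (insert j (tr c (pr k a))) j (deg k a)) = deg k a ∧
      L1 ρ k' (rp (tr c (pr k a)) q (deg k a)) (rp (insert j (tr c (pr k a))) j (deg k a)) := by
    intro k' j hk hj hjq
    have hlt2 : ∀ t ∈ tr c (pr k a), t < j := fun t ht => by
      have := hqq t ht
      omega
    have hjX : ¬ j ∈ tr c (pr k a) := fun h => lt_irrefl j (hlt2 j h)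
    have hYs := hXs' k' j hk hj
    have hYc : (insert j (tr c (pr k a))).card = c + 1 := by
      rw [Finset.card_insert_of_notMem hjX, hXc]
    have hYj : j ∈ insert j (tr c (pr k a)) := Finset.mem_insert_self _ _
    have hYm : ∀ t ∈ insert j (tr c (pr k a)), t ≤ j := by
      intro t ht
      rcases Finset.mem_insert.1 ht with h | h
      · omega
      · exact (hlt2 t h).le
    have hdY : deg k' (rp (insert j (tr c (pr k a))) j (deg k a)) = deg k a :=
      deg_rp hYs hYj (by omega)
    have hpY : pr k' (rp (insert j (tr c (pr k a))) j (deg k a)) = insert j (tr c (pr k a)) :=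
      pr_rp hYs hYj hYm
    have hXs2 : tr c (pr k a) ⊆ Finset.range (k' + 1) := by
      intro t ht
      exact hYs (Finset.mem_insert_of_mem ht)
    have hdX' : deg k' (rp (tr c (pr k a)) q (deg k a)) = deg k a := deg_rp hXs2 hq (by omega)
    have hprX' : pr k' (rp (tr c (pr k a)) q (deg k a)) = tr c (pr k a) := pr_rp hXs2 hq hqq
    have htY := tr_insert hlt2
    rw [hXc] at htY
    have h4 := hJ (c + 1) (le_refl _) hN k' (rp (insert j (tr c (pr k a))) j (deg k a))
      (rp (tr c (pr k a)) q (deg k a)) hdY hdX' (by rw [hpY, hYc])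
      (by rw [hprX', hpY, Nat.add_sub_cancel, htY])
    exact ⟨hdY, (FC.ofFIC ρ).symm h4⟩
  refine V2 k a _ b i haX ?_
  have hdX2 : 2 ≤ deg k (rp (tr c (pr k a)) q (deg k a)) := by omega
  by_cases hiX : i ∈ tr c (pr k a)
  swap
  · refine V0 k _ b i hdX2 hb hi ?_
    rintro ⟨_, h4, _, _⟩
    rw [hX0 i hiX] at h4
    omega
  by_cases hbi : b i = 0
  · refine V0 k _ b i hdX2 hb hi ?_
    rintro ⟨_, _, h4, _⟩
    omega
  by_cases hiq : i = q
  · -- the last element of the common segment
    obtain ⟨h4, h5⟩ := hY (k + 1) (q + 1) (by omega) (by omega) (by omega)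
    have e1 : spl i (rp (tr c (pr k a)) q (deg k a)) = rp (tr c (pr k a)) q (deg k a) := by
      funext t
      unfold spl
      rw [hiq]
      by_cases h6 : t ≤ q
      · rw [if_pos h6]
      · have h7 : ∀ t, q < t → rp (tr c (pr k a)) q (deg k a) t = 0 := by
          intro t ht
          apply hX0
          intro h8
          have := hqq t h8
          omega
        rw [if_neg h6, h7 t (by omega)]
        by_cases h8 : t = q + 1
        · rw [if_pos h8]
        · rw [if_neg h8]
          exact h7 _ (by omega)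
    refine hFV6 ρ hV k i _ (rp (insert (q + 1) (tr c (pr k a))) (q + 1) (deg k a)) b hi hb hdX2
      (by rw [h4]; omega) (by rw [e1]; exact h5) ?_
    rw [hiq]
    unfold rp
    rw [if_pos (Finset.mem_insert_self _ _)]
    omega
  have hiq' : i < q := by
    have := hqq i hiX
    omega
  by_cases hQ1 : ∃ j ∈ tr c (pr k a), j ≠ i ∧ b j ≠ 0
  · obtain ⟨j, hj, hji, hbj⟩ := hQ1
    refine V0 k _ b i hdX2 hb hi ?_
    rintro ⟨h4, _⟩
    have h5 := Finset.mem_range.1 (hXs hj)
    have h6 := hX1 j hj
    rcases h4 j (by omega) hji with h7 | h7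
    · omega
    · exact hbj h7
  push Not at hQ1
  by_cases hQ2 : ∃ j ≤ k, q < j ∧ b j ≠ 0
  · obtain ⟨j, hjk, hjq, hbj⟩ := hQ2
    obtain ⟨h4, h5⟩ := hY k j (le_refl k) hjk hjq
    refine V2 k _ _ b i h5 (V0 k _ b i (by omega) hb hi ?_)
    rintro ⟨h6, _⟩
    rcases h6 j hjk (by omega) with h7 | h7
    · unfold rp at h7
      rw [if_pos (Finset.mem_insert_self _ _)] at h7
      omega
    · exact hbj h7
  push Not at hQ2
  rcases hcla with hjj | ⟨hv1, hv2⟩
  · exfalso
    apply hL
    have h4 : L1 β k a (rp (tr c (pr k a)) q (deg k a)) :=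
      chain hoca h3β (n := c + 1) (fun m hm _ => jpd hoca h3β hjj (by omega))
        ((pr k a).card - c) c (by omega) (by omega) _ hdX hprX
    have h5 : L1 β k a' (rp (tr c (pr k a)) q (deg k a)) :=
      chain hoca h3β (n := c + 1) (fun m hm _ => jpd hoca h3β hjj (by omega))
        ((pr k a').card - c) c (by omega) (by omega) _ (hdX.trans hdd) (hprX.trans hcX)
    exact rr_trans h4 ((FC.ofFIC β).symm h5)
  have hXi := hX1 i hiX
  by_cases hQ3 : ∃ j, i < j ∧ j < q ∧ b j ≠ 0
  · -- `Vd2`
    obtain ⟨j, hij, hjq, hbj⟩ := hQ3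
    have hbm : BMap 2 k (t3 i j q) := bmap_t3 hij.le hjq.le (by omega)
    have e0 : t3 i j q 0 = i := by
      unfold t3
      rw [if_pos rfl]
    have h4 := hFV4 ρ hV 2 k (t3 i j q) (v3 1 0 2) (v3 1 1 0) (rp (tr c (pr k a)) q (deg k a)) b 0
      hbm (by omega) (by unfold v3; rw [if_pos rfl]) (by unfold v3; rw [if_pos rfl])
      (by rw [show deg 2 (v3 1 0 2) = 3 from rfl]; omega)
      (by rw [show deg 2 (v3 1 1 0) = 2 from rfl])
      (by
        intro l hl h0 h5
        exfalso
        have h6 : l = 1 ∨ l = 2 := by omega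
        rcases h6 with h6 | h6
        · rw [h6] at h5
          simp only [t3, one_ne_zero, if_false, if_true] at h5
          omega
        · rw [h6] at h5
          simp only [t3, OfNat.ofNat_ne_zero, OfNat.ofNat_ne_one, if_false, if_true] at h5
          omega)
      (by
        intro t _
        rw [psh_t3]
        by_cases hti : t = i
        · have n1 : ¬ i = q := by omega
          rw [hti]
          simp only [if_true, if_neg n1, ite_self]
          omega
        · by_cases htq : t = q
          · rw [htq]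
            simp only [if_neg (show ¬ q = i by omega), if_true, ite_self]
            omega
          · simp only [if_neg hti, if_neg htq, ite_self]
            omega)
      (by
        intro t _
        rw [psh_t3]
        by_cases hti : t = i
        · rw [hti]
          simp only [if_true, if_neg (show ¬ i = j by omega), ite_self]
          omega
        · by_cases htj : t = j
          · rw [htj]
            simp only [if_neg (show ¬ j = i by omega), if_true, ite_self]
            omega
          · simp only [if_neg hti, if_neg htj, ite_self]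
            omega)
      (bt_mono hle hv2)
    rw [e0] at h4
    exact h4
  push Not at hQ3
  -- `Vd1`
  obtain ⟨j, hji, hjb⟩ : ∃ j, j ≤ i ∧ ((j = i ∧ 2 ≤ b i) ∨ (j < i ∧ b j ≠ 0)) := by
    by_cases h : ∃ j < i, b j ≠ 0
    · obtain ⟨j, hj, hbj⟩ := h
      exact ⟨j, hj.le, Or.inr ⟨hj, hbj⟩⟩
    · push Not at h
      have h4 : deg k b = b i := by
        apply deg_single hi
        intro j hj hji
        rcases Nat.lt_or_gt_of_ne hji with h5 | h5
        · exact h j h5
        · rcases Nat.lt_trichotomy j q with h6 | h6 | h6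
          · exact hQ3 j h5 h6
          · rw [h6]
            exact hQ1 q hq (by omega)
          · exact hQ2 j hj h6
      exact ⟨i, le_refl i, Or.inl ⟨rfl, by omega⟩⟩
  have hbm : BMap 2 k (t3 j i q) := bmap_t3 hji hiq'.le (by omega)
  have e0 : t3 j i q 1 = i := by
    simp only [t3, one_ne_zero, if_false, if_true]
  have h4 := hFV4 ρ hV 2 k (t3 j i q) (v3 0 1 2) (v3 1 1 0) (rp (tr c (pr k a)) q (deg k a)) b 1
    hbm (by omega) (by simp [v3]) (by simp [v3])
    (by rw [show deg 2 (v3 0 1 2) = 3 from rfl]; omega)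
    (by rw [show deg 2 (v3 1 1 0) = 2 from rfl])
    (by
      intro l hl h0 h5
      exfalso
      have h6 : l = 2 := by omega
      rw [h6] at h5
      simp only [t3, OfNat.ofNat_ne_zero, OfNat.ofNat_ne_one, one_ne_zero, if_false,
        if_true] at h5
      omega)
    (by
      intro t _
      rw [psh_t3]
      by_cases hti : t = i
      · rw [hti]
        simp only [if_true, if_neg (show ¬ i = q by omega), ite_self]
        omega
      · by_cases htq : t = q
        · rw [htq]
          simp only [if_neg (show ¬ q = i by omega), if_true, ite_self]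
          omega
        · simp only [if_neg hti, if_neg htq, ite_self]
          omega)
    (by
      intro t _
      rw [psh_t3]
      simp only [ite_self]
      by_cases hti : t = i
      · by_cases htj : t = j
        · have h7 : 2 ≤ b t := by
            rcases hjb with h | h
            · rw [hti]
              exact h.2
            · omega
          rw [if_pos htj, if_pos hti]
          omega
        · rw [if_neg htj, if_pos hti, hti]
          omega
      · by_cases htj : t = j
        · have h7 : b j ≠ 0 := by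
            rcases hjb with h | h
            · omega
            · exact h.2
          rw [if_pos htj, if_neg hti, htj]
          omega
        · rw [if_neg htj, if_neg hti]
          omega)
    (bt_mono hle hv1)
  rw [e0] at h4
  exact h4

end TvcRow

open TvcRow in
/-- **TVC** -/
theorem tvc (hoca : OcaStmt) (hocr : OcrStmt) (hFV1 : Fv1Stmt) (hFV4 : Fv4Stmt)
    (hFV6 : Fv6Stmt) (hFV7 : Fv7Stmt) (hT2V : T2vStmt) : TvcStmt := by
  intro β hVβ h3β hcla ρ hle _ k a a' hd hdd h1
  by_cases hL : L1 β k a a'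
  · exact Or.inl hL
  right
  intro b e hb i hi
  suffices h : Bt ρ k a b i from h e
  have hV : MVD.Ve ρ := ve_mono hle hVβ
  have h3 : O3 (FC.ofFIC ρ) := rr_mono hle h3β
  have hpr : pr k a ≠ pr k a' := fun hpr => hL (hoca (FC.ofFIC β) k a a' h3β hdd hpr)
  by_cases hd3 : 3 ≤ deg k a
  swap
  · have hd2 : deg k a = 2 := by omega
    have hd2' : deg k a' = 2 := by omega
    have hne : sp k a ≠ sp k a' := by
      intro h
      apply hL
      have h4 := H5.eq_of_deg_two hd2 hd2' h
      have h5 := H5.eq_of_deg_two hd2' hd2 h.symm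
      exact (FC.ofFIC β).ext (a := a) (b := a) (fun _ _ => rfl)
        (fun j hj => by have := h4 j hj; have := h5 j hj; omega) ((FC.ofFIC β).refl k a)
    exact hT2V ρ hV k a a' b i hd2 hd2' hb hi h1 hne
  obtain ⟨V0, V2, _⟩ := hFV1 ρ hV
  have hSg : ∀ (k p i : ℕ) (b : ℕ → ℕ) (d : ℕ), p ≤ k → i ≤ k → 3 ≤ d → 2 ≤ deg k b →
      Bt ρ k (sg p d) b i := by
    intro k p i b d hp hi hd hb
    exact hFV7 ρ hV k p d (d - 1) 1 b i hp hi (by omega) (by omega) (le_refl 1) hb (lRel h3 hd)
  have hone : ∀ {c : ℕ → ℕ}, deg k c = deg k a → L1 ρ k a c → (pr k c).card = 1 →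
      Bt ρ k a b i := by
    intro c hdc hac hc
    obtain ⟨p, hp⟩ := Finset.card_eq_one.1 hc
    have hpk : p ∈ pr k c := by
      rw [hp]
      exact Finset.mem_singleton_self p
    have h4 := Finset.mem_range.1 (pr_sub_range hpk)
    have h5 := rel_sg hoca h3 (by omega) hp
    exact V2 k a _ b i (rr_trans hac h5) (hSg k p i b _ (by omega) hi (by omega) hb)
  have hne : (pr k a).Nonempty := pr_nonempty (by omega)
  have hne' : (pr k a').Nonempty := pr_nonempty (by omega)
  have hpos := Finset.card_pos.2 hne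
  have hpos' := Finset.card_pos.2 hne'
  by_cases hc1 : (pr k a).card = 1
  · exact hone rfl ((FC.ofFIC ρ).refl k a) hc1
  by_cases hc1' : (pr k a').card = 1
  · exact hone hdd.symm h1 hc1'
  have hp := Finset.min'_mem _ hne
  have hpm : ∀ j ∈ pr k a, (pr k a).min' hne ≤ j := fun j hj => Finset.min'_le _ j hj
  have hp' := Finset.min'_mem _ hne'
  have hpm' : ∀ j ∈ pr k a', (pr k a').min' hne' ≤ j := fun j hj => Finset.min'_le _ j hj
  by_cases hpp : (pr k a').min' hne' = (pr k a).min' hne
  · rw [hpp] at hp' hpm'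
    exact case2 hoca hocr hFV1 hFV4 hFV6 hle hV h3β hcla h3 hSg hd3 hdd h1 hL hpr hb hi hp hpm
      hp' hpm'
  -- different first elements
  have hmin : (pr k a).min ≠ (pr k a').min := by
    rw [min_of hp hpm, min_of hp' hpm']
    intro h
    exact hpp (WithTop.coe_injective h).symm
  obtain ⟨C1, _, _, C4, _⟩ := hocr (FC.ofFIC ρ) k a a' h3 hd hdd h1 hpr
  have hB := C4 hmin (fun h => hc1 h.1)
  obtain ⟨q, hqk, hq⟩ := case1 hoca h3 (by omega) hB (fun m hm hm2 => C1 m hm (by
    intro h
    have h4 : tr 1 (pr k a) = tr 1 (pr k a') := by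
      rw [← tr_tr (show 1 ≤ m by omega), h, tr_tr (show 1 ≤ m by omega)]
    rw [tr_one hp hpm, tr_one hp' hpm'] at h4
    exact hpp (Finset.singleton_injective h4).symm) (Or.inl hm2))
  exact V2 k a _ b i hq (hSg k q i b _ hqk hi hd3 hb)

end Pool.Agent.MVO.H47
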